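import Mathlib

/-!
# MP_b29aa3_nt, Q1: a counterexample

For `p = 7`, `q = 19`, `r = 797 ≡ -1 (mod 133)`, `s = 2120021 ≡ 1 (mod 133·797)` and
`q ≡ 5 (mod 7)`, the cyclotomic polynomial `Φ_{pqrs}` has a coefficient equal to `-3`.
-/

namespace Pool.Agent.Q35.HeightThree

open Polynomial Finset

noncomputable section

/-- coefficient of a product with an expanded polynomial -/
lemma coeff_expand_mul (r : ℕ) (hr : 0 < r) (P : ℤ[X]) (D : PowerSeries ℤ) (k : ℕ) :
    PowerSeries.coeff k (((expand ℤ r P : ℤ[X]) : PowerSeries ℤ) * D) =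
      ∑ i ∈ range (k / r + 1), P.coeff i * PowerSeries.coeff (k - r * i) D := by
  rw [PowerSeries.coeff_mul, Finset.Nat.sum_antidiagonal_eq_sum_range_succ
    (fun x y => PowerSeries.coeff x ((expand ℤ r P : ℤ[X]) : PowerSeries ℤ) *
      PowerSeries.coeff y D)]
  have h1 : ∀ x ∈ range (k + 1), ¬ r ∣ x →
      PowerSeries.coeff x ((expand ℤ r P : ℤ[X]) : PowerSeries ℤ) *
      PowerSeries.coeff (k - x) D = 0 := by
    intro x _ hx
    rw [Polynomial.coeff_coe, coeff_expand hr, if_neg hx, zero_mul]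
  rw [← Finset.sum_filter_add_sum_filter_not (range (k + 1)) (fun x => r ∣ x)]
  rw [Finset.sum_eq_zero (s := (range (k + 1)).filter (fun x => ¬ r ∣ x))
    (fun x hx => h1 x (Finset.mem_filter.1 hx).1 (Finset.mem_filter.1 hx).2), add_zero]
  symm
  apply Finset.sum_bij (fun i _ => r * i)
  · intro i hi
    rw [Finset.mem_range, Nat.lt_succ_iff] at hi
    rw [Finset.mem_filter, Finset.mem_range, Nat.lt_succ_iff]
    refine ⟨?_, dvd_mul_right _ _⟩
    calc r * i ≤ r * (k / r) := Nat.mul_le_mul_left _ hi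
      _ ≤ k := Nat.mul_div_le _ _
  · intro i _ j _ h
    exact Nat.eq_of_mul_eq_mul_left hr h
  · intro x hx
    rw [Finset.mem_filter, Finset.mem_range, Nat.lt_succ_iff] at hx
    obtain ⟨i, rfl⟩ := hx.2
    refine ⟨i, ?_, rfl⟩
    rw [Finset.mem_range, Nat.lt_succ_iff]
    exact (Nat.le_div_iff_mul_le hr).2 (by rw [mul_comm]; exact hx.1)
  · intro i _
    rw [Polynomial.coeff_coe, coeff_expand_mul' hr]

/-- Inverse power series of a cyclotomic polynomial `Φ_n` is `n`-periodic. -/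
lemma periodic (n : ℕ) (hn : 0 < n) (C : PowerSeries ℤ)
    (hC : ((cyclotomic n ℤ : ℤ[X]) : PowerSeries ℤ) * C = 1) (j : ℕ) :
    PowerSeries.coeff (j + n) C = PowerSeries.coeff j C := by
  obtain ⟨Ψ, hΨ⟩ := cyclotomic.dvd_X_pow_sub_one n ℤ
  have hdeg : Ψ.natDegree < n := by
    have h0 : (X ^ n - 1 : ℤ[X]) ≠ 0 := by
      exact (monic_X_pow_sub_C (1 : ℤ) hn.ne').ne_zero
    have h1 : (X ^ n - 1 : ℤ[X]).natDegree = n := natDegree_X_pow_sub_C (r := (1 : ℤ))
    have h2 : Ψ ≠ 0 := by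
      rintro rfl
      rw [mul_zero] at hΨ
      exact h0 hΨ
    rw [hΨ, natDegree_mul (cyclotomic_ne_zero n ℤ) h2, natDegree_cyclotomic] at h1
    have := Nat.totient_pos.2 hn
    omega
  have h : ((X ^ n - 1 : ℤ[X]) : PowerSeries ℤ) * C = (Ψ : PowerSeries ℤ) := by
    rw [hΨ, Polynomial.coe_mul]
    calc _ = (Ψ : PowerSeries ℤ) * (((cyclotomic n ℤ : ℤ[X]) : PowerSeries ℤ) * C) := by ring
      _ = _ := by rw [hC, mul_one]
  have h2 := congrArg (PowerSeries.coeff (j + n)) h
  have h3 : ((X ^ n - 1 : ℤ[X]) : PowerSeries ℤ) * C = PowerSeries.X ^ n * C - C := by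
    rw [Polynomial.coe_sub, Polynomial.coe_pow, Polynomial.coe_X, Polynomial.coe_one]; ring
  rw [h3, map_sub, Polynomial.coeff_coe, coeff_eq_zero_of_natDegree_lt (by omega),
    PowerSeries.coeff_X_pow_mul] at h2
  linarith

lemma periodic_mul (n : ℕ) (hn : 0 < n) (C : PowerSeries ℤ)
    (hC : ((cyclotomic n ℤ : ℤ[X]) : PowerSeries ℤ) * C = 1) (j u : ℕ) :
    PowerSeries.coeff (j + n * u) C = PowerSeries.coeff j C := by
  induction u with
  | zero => simp
  | succ u ih =>
    rw [show j + n * (u + 1) = (j + n * u) + n by ring, periodic n hn C hC, ih]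

/-! ### The polynomial `Φ_133` -/

lemma A_rel : cyclotomic 133 ℤ * ((1 - X ^ 7) * (1 - X ^ 19)) = (1 - X) * (1 - X ^ 133 : ℤ[X]) := by
  have hp7 : Fact (Nat.Prime 7) := ⟨by norm_num⟩
  have h1 : expand ℤ 19 (cyclotomic 7 ℤ) = cyclotomic (7 * 19) ℤ * cyclotomic 7 ℤ :=
    cyclotomic_expand_eq_cyclotomic_mul (by norm_num) (by norm_num) ℤ
  have h2 : cyclotomic 7 ℤ * (X - 1) = X ^ 7 - 1 :=
    cyclotomic_prime_mul_X_sub_one ℤ 7
  have h3 : expand ℤ 19 (cyclotomic 7 ℤ) * (X ^ 19 - 1) = X ^ 133 - 1 := by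
    have := congrArg (expand ℤ 19) h2
    simp only [map_mul, map_sub, map_pow, expand_X, map_one] at this
    rw [this, ← pow_mul]
  have e : (7 * 19 : ℕ) = 133 := rfl
  rw [h1, e] at h3
  generalize cyclotomic 133 ℤ = a at *
  generalize cyclotomic 7 ℤ = b at *
  generalize (X : ℤ[X]) ^ 133 = Z at *
  generalize (X : ℤ[X]) ^ 19 = Y at *
  generalize (X : ℤ[X]) ^ 7 = W at *
  linear_combination (X - 1) * h3 - a * (Y - 1) * h2

/-- `Φ_133` as a power series. -/
def As : PowerSeries ℤ := ((cyclotomic 133 ℤ : ℤ[X]) : PowerSeries ℤ)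

lemma As_rel : As * ((1 - PowerSeries.X ^ 7) * (1 - PowerSeries.X ^ 19)) =
    (1 - PowerSeries.X) * (1 - PowerSeries.X ^ 133) := by
  have h := congrArg (Polynomial.coeToPowerSeries.ringHom (R := ℤ)) A_rel
  simp only [map_mul, map_sub, map_one, map_pow, Polynomial.coeToPowerSeries.ringHom_apply,
    Polynomial.coe_X] at h
  exact h

/-- The coefficients of `1/Φ_133`. -/
def dd (j : ℕ) : ℤ := if j % 133 < 7 then 1 else if 19 ≤ j % 133 ∧ j % 133 < 26 then -1 else 0

def ee (j : ℕ) : ℤ := if j < 7 then 1 else if 19 ≤ j ∧ j < 26 then -1 else 0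

def Dser : PowerSeries ℤ := PowerSeries.mk dd

def Eser : PowerSeries ℤ := PowerSeries.mk ee

lemma Dser_rel : Dser * (1 - PowerSeries.X ^ 133) = Eser := by
  ext j
  rw [mul_sub, mul_one, map_sub, PowerSeries.coeff_mul_X_pow']
  simp only [Dser, Eser, PowerSeries.coeff_mk]
  by_cases h : 133 ≤ j
  · rw [if_pos h]
    have h1 : dd j = dd (j - 133) := by
      unfold dd
      have : j % 133 = (j - 133) % 133 := by omega
      rw [this]
    rw [h1, sub_self]
    unfold ee
    rw [if_neg (by omega), if_neg (by omega)]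
  · rw [if_neg h]
    unfold dd ee
    have : j % 133 = j := Nat.mod_eq_of_lt (by omega)
    rw [this, sub_zero]

lemma Eser_rel : Eser * (1 - PowerSeries.X) =
    (1 - PowerSeries.X ^ 7) * (1 - PowerSeries.X ^ 19) := by
  have e : (1 - PowerSeries.X ^ 7) * (1 - PowerSeries.X ^ 19) =
    (1 - PowerSeries.X ^ 7 - PowerSeries.X ^ 19 + PowerSeries.X ^ 26 : PowerSeries ℤ) := by ring
  rw [e]
  ext j
  rw [mul_sub, mul_one, map_sub]
  simp only [map_sub, map_add, PowerSeries.coeff_X_pow, PowerSeries.coeff_one]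
  cases j with
  | zero => simp [Eser, ee]
  | succ j =>
    rw [PowerSeries.coeff_succ_mul_X]
    simp only [Eser, PowerSeries.coeff_mk, ee]
    split_ifs <;> first | contradiction | omega | norm_num

lemma A_Dser : As * Dser = 1 := by
  have hne : ((1 - PowerSeries.X) * (1 - PowerSeries.X ^ 133) : PowerSeries ℤ) ≠ 0 := by
    intro h
    have := congrArg (PowerSeries.constantCoeff (R := ℤ)) h
    simp at this
  apply mul_right_cancel₀ hne
  rw [one_mul]
  calc As * Dser * ((1 - PowerSeries.X) * (1 - PowerSeries.X ^ 133))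
      = As * (Dser * (1 - PowerSeries.X ^ 133) * (1 - PowerSeries.X)) := by ring
    _ = _ := by rw [Dser_rel, Eser_rel, As_rel]

/-- The first coefficients of `Φ_133`. -/
def ff : List ℤ := [1, -1, 0, 0, 0, 0, 0, 1, -1, 0, 0, 0, 0, 0, 1, -1, 0, 0, 0, 1, -1, 1, -1, 0, 0, 0,
  1, -1, 1, -1, 0, 0, 0, 1, -1, 1, -1, 0, 1]

/-- recursion for the coefficients of `Φ_133` below `133` -/
lemma A_rec (j : ℕ) (hj : j < 133) :
    (cyclotomic 133 ℤ).coeff j = (if j = 0 then 1 else 0) - (if j = 1 then 1 else 0)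
      + (if 7 ≤ j then (cyclotomic 133 ℤ).coeff (j - 7) else 0)
      + (if 19 ≤ j then (cyclotomic 133 ℤ).coeff (j - 19) else 0)
      - (if 26 ≤ j then (cyclotomic 133 ℤ).coeff (j - 26) else 0) := by
  have h := congrArg (fun p => Polynomial.coeff p j) A_rel
  have e1 : cyclotomic 133 ℤ * ((1 - X ^ 7) * (1 - X ^ 19)) =
      cyclotomic 133 ℤ - cyclotomic 133 ℤ * X ^ 7 - cyclotomic 133 ℤ * X ^ 19
        + cyclotomic 133 ℤ * X ^ 26 := by ring
  have e2 : ((1 - X) * (1 - X ^ 133) : ℤ[X]) = 1 - X - X ^ 133 + X ^ 134 := by ring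
  rw [e1, e2] at h
  simp only [coeff_add, coeff_sub, coeff_mul_X_pow', coeff_X_pow, coeff_X, coeff_one] at h
  rw [if_neg (by omega : ¬ j = 133), if_neg (by omega : ¬ j = 134)] at h
  have e3 : (if 1 = j then (1 : ℤ) else 0) = if j = 1 then 1 else 0 := by
    simp only [eq_comm]
  rw [e3] at h
  linarith

lemma A_coeff : ∀ j : ℕ, j < 39 → (cyclotomic 133 ℤ).coeff j = ff.getD j 0 := by
  intro j
  induction j using Nat.strong_induction_on with
  | _ j ih =>
    intro hj
    rw [A_rec j (by omega)]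
    have h7 : 7 ≤ j → (cyclotomic 133 ℤ).coeff (j - 7) = ff.getD (j - 7) 0 := fun h =>
      ih (j - 7) (by omega) (by omega)
    have h19 : 19 ≤ j → (cyclotomic 133 ℤ).coeff (j - 19) = ff.getD (j - 19) 0 := fun h =>
      ih (j - 19) (by omega) (by omega)
    have h26 : 26 ≤ j → (cyclotomic 133 ℤ).coeff (j - 26) = ff.getD (j - 26) 0 := fun h =>
      ih (j - 26) (by omega) (by omega)
    have key : ∀ j : ℕ, j < 39 → ff.getD j 0 = (if j = 0 then 1 else 0) - (if j = 1 then 1 else 0)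
      + (if 7 ≤ j then ff.getD (j - 7) 0 else 0)
      + (if 19 ≤ j then ff.getD (j - 19) 0 else 0)
      - (if 26 ≤ j then ff.getD (j - 26) 0 else 0) := by decide
    rw [key j hj]
    have g7 : (if 7 ≤ j then (cyclotomic 133 ℤ).coeff (j - 7) else 0) =
        (if 7 ≤ j then ff.getD (j - 7) 0 else 0) := by
      by_cases h : 7 ≤ j
      · rw [if_pos h, if_pos h, h7 h]
      · rw [if_neg h, if_neg h]
    have g19 : (if 19 ≤ j then (cyclotomic 133 ℤ).coeff (j - 19) else 0) =
        (if 19 ≤ j then ff.getD (j - 19) 0 else 0) := by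
      by_cases h : 19 ≤ j
      · rw [if_pos h, if_pos h, h19 h]
      · rw [if_neg h, if_neg h]
    have g26 : (if 26 ≤ j then (cyclotomic 133 ℤ).coeff (j - 26) else 0) =
        (if 26 ≤ j then ff.getD (j - 26) 0 else 0) := by
      by_cases h : 26 ≤ j
      · rw [if_pos h, if_pos h, h26 h]
      · rw [if_neg h, if_neg h]
    rw [g7, g19, g26]

/-! ### The ternary and quaternary polynomials -/

lemma prime797 : Nat.Prime 797 := by norm_num

lemma prime2120021 : Nat.Prime 2120021 := by norm_num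

/-- `Φ_{7·19·797}` as a power series. -/
def Gs : PowerSeries ℤ := ((cyclotomic (133 * 797) ℤ : ℤ[X]) : PowerSeries ℤ)

lemma G_eq : Gs = ((expand ℤ 797 (cyclotomic 133 ℤ) : ℤ[X]) : PowerSeries ℤ) * Dser := by
  have h : expand ℤ 797 (cyclotomic 133 ℤ) = cyclotomic (133 * 797) ℤ * cyclotomic 133 ℤ :=
    cyclotomic_expand_eq_cyclotomic_mul prime797 (by norm_num) ℤ
  rw [h, Polynomial.coe_mul]
  calc Gs = Gs * (As * Dser) := by rw [A_Dser, mul_one]
    _ = _ := by rw [← mul_assoc]; rfl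

lemma exists_C : ∃ C : PowerSeries ℤ, Gs * C = 1 := by
  have hu : IsUnit Gs := by
    rw [PowerSeries.isUnit_iff_constantCoeff]
    have : PowerSeries.constantCoeff Gs = (cyclotomic (133 * 797) ℤ).coeff 0 := by
      unfold Gs
      rw [← PowerSeries.coeff_zero_eq_constantCoeff_apply, Polynomial.coeff_coe]
    rw [this, cyclotomic_coeff_zero ℤ (by norm_num)]
    exact isUnit_one
  obtain ⟨u, hu⟩ := hu
  exact ⟨(u⁻¹ : (PowerSeries ℤ)ˣ), by rw [← hu]; simp⟩

lemma G_coeff (t : ℕ) (ht : t < 797) :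
    PowerSeries.coeff (38 * 797 + t) Gs =
      ∑ i ∈ range 39, ff.getD i 0 * dd (38 * 797 + t - 797 * i) := by
  rw [G_eq, coeff_expand_mul 797 (by norm_num)]
  have e : (38 * 797 + t) / 797 + 1 = 39 := by omega
  rw [e]
  apply Finset.sum_congr rfl
  intro i hi
  rw [A_coeff i (Finset.mem_range.1 hi)]
  simp [Dser]

/-- Below degree `797` the inverse of `Φ_{133·797}` agrees with `Φ_133`. -/
lemma C_coeff (C : PowerSeries ℤ) (hC : Gs * C = 1) (j : ℕ) (hj : j < 39) :
    PowerSeries.coeff j C = ff.getD j 0 := by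
  have h : expand ℤ 797 (cyclotomic 133 ℤ) = cyclotomic (133 * 797) ℤ * cyclotomic 133 ℤ :=
    cyclotomic_expand_eq_cyclotomic_mul prime797 (by norm_num) ℤ
  have h1 : ((expand ℤ 797 (cyclotomic 133 ℤ) : ℤ[X]) : PowerSeries ℤ) * C = As := by
    rw [h, Polynomial.coe_mul]
    calc _ = As * (Gs * C) := by unfold Gs As; ring
      _ = As := by rw [hC, mul_one]
  have h2 := coeff_expand_mul 797 (by norm_num) (cyclotomic 133 ℤ) C j
  rw [h1] at h2
  have e : j / 797 + 1 = 1 := by omega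
  rw [e] at h2
  simp only [Finset.range_one, Finset.sum_singleton, mul_zero, Nat.sub_zero] at h2
  rw [cyclotomic_coeff_zero ℤ (by norm_num), one_mul] at h2
  rw [← h2, As, Polynomial.coeff_coe, A_coeff j hj]

/-- The coefficient of `Φ_{7·19·797·2120021}` equal to `-3`. -/
lemma H_coeff : (cyclotomic (133 * 797 * 2120021) ℤ).coeff (2120021 * 30291 + 39) = -3 := by
  obtain ⟨C, hC⟩ := exists_C
  have h : expand ℤ 2120021 (cyclotomic (133 * 797) ℤ) =
      cyclotomic (133 * 797 * 2120021) ℤ * cyclotomic (133 * 797) ℤ :=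
    cyclotomic_expand_eq_cyclotomic_mul prime2120021 (by norm_num) ℤ
  have h1 : ((cyclotomic (133 * 797 * 2120021) ℤ : ℤ[X]) : PowerSeries ℤ) =
      ((expand ℤ 2120021 (cyclotomic (133 * 797) ℤ) : ℤ[X]) : PowerSeries ℤ) * C := by
    rw [h, Polynomial.coe_mul]
    calc _ = ((cyclotomic (133 * 797 * 2120021) ℤ : ℤ[X]) : PowerSeries ℤ) * (Gs * C) := by
          rw [hC, mul_one]
      _ = _ := by rw [← mul_assoc]; rfl
  rw [← Polynomial.coeff_coe, h1, coeff_expand_mul 2120021 (by norm_num)]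
  have e : (2120021 * 30291 + 39) / 2120021 + 1 = 30292 := by norm_num
  rw [e]
  have h2 : ∀ k ∈ range 30292, (cyclotomic (133 * 797) ℤ).coeff k *
      PowerSeries.coeff (2120021 * 30291 + 39 - 2120021 * k) C =
      PowerSeries.coeff k Gs * PowerSeries.coeff (30330 - k) C := by
    intro k hk
    have hk' : k ≤ 30291 := by simpa [Nat.lt_succ_iff] using Finset.mem_range.1 hk
    have e2 : 2120021 * 30291 + 39 - 2120021 * k = (30330 - k) + (133 * 797) * (20 * (30291 - k)) := by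
      omega
    rw [e2, periodic_mul (133 * 797) (by norm_num) C hC]
    simp [Gs]
  rw [Finset.sum_congr rfl h2]
  have h3 : ∑ k ∈ range (30330 + 1), PowerSeries.coeff k Gs * PowerSeries.coeff (30330 - k) C = 0 := by
    have := congrArg (PowerSeries.coeff 30330) hC
    rw [PowerSeries.coeff_mul, Finset.Nat.sum_antidiagonal_eq_sum_range_succ
      (fun x y => PowerSeries.coeff x Gs * PowerSeries.coeff y C)] at this
    rw [this, PowerSeries.coeff_one]
    simp
  have h4 : (30330 + 1 : ℕ) = 30292 + 39 := by norm_num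
  rw [h4, Finset.sum_range_add] at h3
  have h5 : ∑ x ∈ range 39, PowerSeries.coeff (30292 + x) Gs *
      PowerSeries.coeff (30330 - (30292 + x)) C =
      ∑ x ∈ range 39, (∑ i ∈ range 39, ff.getD i 0 * dd (38 * 797 + (6 + x) - 797 * i)) *
        ff.getD (38 - x) 0 := by
    apply Finset.sum_congr rfl
    intro x hx
    have hx' := Finset.mem_range.1 hx
    have e1 : 30292 + x = 38 * 797 + (6 + x) := by omega
    have e2 : 30330 - (30292 + x) = 38 - x := by omega
    rw [e2, e1, G_coeff _ (by omega), C_coeff C hC _ (by omega)]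
  have h6 : ∑ x ∈ range 39, (∑ i ∈ range 39, ff.getD i 0 * dd (38 * 797 + (6 + x) - 797 * i)) *
        ff.getD (38 - x) 0 = 3 := by decide +kernel
  rw [h5, h6] at h3
  linarith

/-- The height of an integer polynomial: the largest absolute value of a coefficient. -/
def height (P : ℤ[X]) : ℕ := P.support.sup fun k => (P.coeff k).natAbs

lemma le_height (P : ℤ[X]) (k : ℕ) : (P.coeff k).natAbs ≤ height P := by
  by_cases h : k ∈ P.support
  · exact Finset.le_sup (f := fun k => (P.coeff k).natAbs) h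
  · rw [Polynomial.notMem_support_iff.1 h]; simp

end

end Pool.Agent.Q35.HeightThree

namespace Pool.Agent.Results.MP_b29aa3_nt.HeightThree

open Polynomial Pool.Agent.Q35.HeightThree

/-- **MP_b29aa3_nt, Q1 (disproved).** The assertion that `A(pqrs) = 2` whenever `p < q < r < s` are
primes with `s ≡ ±1 (mod pqr)`, `r ≡ ±1 (mod pq)` and `q ≢ -1 (mod p)` is false. -/
theorem result : ¬ ∀ p q r s : ℕ, p.Prime → q.Prime → r.Prime → s.Prime → p < q → q < r → r < s →
    ((s : ℤ) ≡ 1 [ZMOD (p * q * r : ℕ)] ∨ (s : ℤ) ≡ -1 [ZMOD (p * q * r : ℕ)]) →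
    ((r : ℤ) ≡ 1 [ZMOD (p * q : ℕ)] ∨ (r : ℤ) ≡ -1 [ZMOD (p * q : ℕ)]) →
    ¬ ((q : ℤ) ≡ -1 [ZMOD p]) →
    height (cyclotomic (p * q * r * s) ℤ) = 2 := by
  intro h
  have h1 := h 7 19 797 2120021 (by norm_num) (by norm_num) prime797 prime2120021 (by norm_num)
    (by norm_num) (by norm_num) (Or.inl (by decide)) (Or.inr (by decide)) (by decide)
  have h2 := le_height (cyclotomic (7 * 19 * 797 * 2120021) ℤ) (2120021 * 30291 + 39)
  have e : (7 * 19 * 797 * 2120021 : ℕ) = 133 * 797 * 2120021 := by norm_num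
  rw [h1, e, H_coeff] at h2
  norm_num at h2

end Pool.Agent.Results.MP_b29aa3_nt.HeightThree
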